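import Pool.Agent.Run7.h401.SD.Ind
import Pool.Agent.Run7.h401.SD.Joint

/-!
# The boundary values of two L-series of elliptic curves have a joint smooth density

Let `E` be an elliptic curve over a number field `K` and `E'` an elliptic curve over a number field `K'`.  The logarithms of
their L-series have boundary values on the edge `Re s = 3/2` of absolute convergence, at almost all points.  We look at the
pairs `(log L(E, 3/2 + σ + it), log L(E', 3/2 + σ' + i(t + τ)))` with `σ, σ' ≥ 0` and `τ` fixed, and prove: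

there is a nonnegative function `f` on `ℂ × ℂ`, infinitely differentiable and rapidly decreasing together with all its
derivatives, such that for every set `B` in `ℂ × ℂ` whose boundary has measure zero the proportion of the `t` in `[T, T + H]`
for which the pair lies in `B` tends to the integral of `f` over `B`, as `H → ∞`, uniformly in `T` - except possibly when
`σ = σ'`, `τ = 0` and for all but finitely many rational primes `p` the Euler polynomials `P_p` of `E` and `P'_p` of `E'` are
powers of one polynomial up to the exponents, `P_p ^ deg P'_p = P'_p ^ deg P_p`.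

So for one curve the values at two different points `3/2 + it`, `3/2 + i(t + τ)` of the edge (or on two different lines)
always have a smooth joint density, and for two curves over the same field the values at the same point have one as soon as
infinitely many Euler polynomials differ.  In particular the pairs do not accumulate along any analytic (or only: closed, of
measure zero) relation between the two values: such a relation holds, even approximately, only for a small proportion of `t`.

No continuation of the L-series is known or assumed, and nothing is assumed about the numbers `a_v`.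

Proof.  The limit law is the law of a random vector which is a sum of independent terms, one for every rational prime `p`; the
term of `p` is `(- log A_p(z), - log B_p(z))`, with `z` uniformly distributed on the unit circle and with two polynomials
with constant term 1 of degree at most `2 [K : ℚ]` and `2 [K' : ℚ]`.  If `A_p ^ deg B_p ≠ B_p ^ deg A_p`, the derivatives
of `Re (u log A_p + u' log B_p)` along the circle do not vanish identically for any `(u, u') ≠ 0`; since their
numerators are trigonometric polynomials of bounded degree, they are small only on small sets, uniformly in `(u, u')`, and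
the characteristic function of the term is `O(|ξ|^(-β))` with `β > 0` that depends only on the degrees.  A comparison of
leading coefficients shows that the condition holds for all but finitely many `p` when `σ ≠ σ'` or `τ ≠ 0`.
-/

set_option autoImplicit false

namespace Pool.Agent.Results.MP_7ed9c3_nt.JointSmoothDensity

open NumberField IsDedekindDomain Filter Topology MeasureTheory
open scoped ENNReal ContDiff

/-- `W v` is, for every finite place `v`, an integral model of `E` with discriminant minimal at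
`v`. -/
def MinimalModels {K : Type} [Field K] [NumberField K] (E : WeierstrassCurve K)
    (W : HeightOneSpectrum (𝓞 K) → WeierstrassCurve (𝓞 K)) : Prop :=
  ∀ v : HeightOneSpectrum (𝓞 K),
    (∃ C : WeierstrassCurve.VariableChange K, C • (W v).map (algebraMap (𝓞 K) K) = E) ∧
    ∀ W' : WeierstrassCurve (𝓞 K),
      (∃ C : WeierstrassCurve.VariableChange K, C • W'.map (algebraMap (𝓞 K) K) = E) →
      ∀ n : ℕ, (W v).Δ ∈ v.asIdeal ^ n → W'.Δ ∈ v.asIdeal ^ n

/-- The number `a_v`: `Nv` minus the number of affine points of the reduction of `W v`. -/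
noncomputable def trace {K : Type} [Field K] [NumberField K]
    (W : HeightOneSpectrum (𝓞 K) → WeierstrassCurve (𝓞 K)) (v : HeightOneSpectrum (𝓞 K)) : ℂ :=
  (Ideal.absNorm v.asIdeal : ℂ)
    - (Nat.card {xy : (𝓞 K ⧸ v.asIdeal) × (𝓞 K ⧸ v.asIdeal) //
        ((W v).map (Ideal.Quotient.mk v.asIdeal)).toAffine.Equation xy.1 xy.2} : ℂ)

open Classical in
/-- The Euler factor at `v`, `(1 - a_v Nv^{-s} + Nv^{1-2s})⁻¹` if the reduction at `v` is good and
`(1 - a_v Nv^{-s})⁻¹` if it is bad. -/
noncomputable def localFactor {K : Type} [Field K] [NumberField K]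
    (W : HeightOneSpectrum (𝓞 K) → WeierstrassCurve (𝓞 K)) (v : HeightOneSpectrum (𝓞 K))
    (s : ℂ) : ℂ :=
  (1 - trace W v * (Ideal.absNorm v.asIdeal : ℂ) ^ (-s)
    + (if (W v).Δ ∈ v.asIdeal then 0 else (Ideal.absNorm v.asIdeal : ℂ))
        * (Ideal.absNorm v.asIdeal : ℂ) ^ (-2 * s))⁻¹

/-- The `L`-series, as the Euler product over all finite places. -/
noncomputable def LSeries {K : Type} [Field K] [NumberField K]
    (W : HeightOneSpectrum (𝓞 K) → WeierstrassCurve (𝓞 K)) (s : ℂ) : ℂ :=
  ∏' v : HeightOneSpectrum (𝓞 K), localFactor W v s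

/-- The sum of the logarithms of the Euler factors at `s` over the finite places of norm less than `x`. -/
noncomputable def partialLog {K : Type} [Field K] [NumberField K]
    (W : HeightOneSpectrum (𝓞 K) → WeierstrassCurve (𝓞 K)) (s : ℂ) (x : ℕ) : ℂ :=
  ∑ᶠ v ∈ {v : HeightOneSpectrum (𝓞 K) | Ideal.absNorm v.asIdeal < x}, Complex.log (localFactor W v s)

/-- The value of `log L(E, s)` at `s`: the limit of the sums `partialLog W s x` as `x → ∞`. -/
noncomputable def logValue {K : Type} [Field K] [NumberField K]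
    (W : HeightOneSpectrum (𝓞 K) → WeierstrassCurve (𝓞 K)) (s : ℂ) : ℂ :=
  limUnder atTop (partialLog W s)

/-- The point `3/2 + iτ` of the edge of absolute convergence. -/
noncomputable def edgePoint (τ : ℝ) : ℂ := ((3 / 2 : ℝ) : ℂ) + (τ : ℂ) * Complex.I

open Classical in
/-- The Euler polynomial of a rational prime `p`: the product over the places `v` above `p`, with `Nv = p ^ f`, of
`1 - a_v X ^ f + Nv X ^ (2 f)` if the reduction at `v` is good and of `1 - a_v X ^ f` if it is bad. -/
noncomputable def eulerPolynomial {K : Type} [Field K] [NumberField K]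
    (W : HeightOneSpectrum (𝓞 K) → WeierstrassCurve (𝓞 K)) (p : ℕ) : Polynomial ℂ :=
  ∏ᶠ v ∈ {v : HeightOneSpectrum (𝓞 K) | (p : 𝓞 K) ∈ v.asIdeal},
    (1 - Polynomial.C (trace W v) * Polynomial.X ^ (Ideal.absNorm v.asIdeal).factorization p
      + Polynomial.C (if (W v).Δ ∈ v.asIdeal then 0 else (Ideal.absNorm v.asIdeal : ℂ)) *
        Polynomial.X ^ (2 * (Ideal.absNorm v.asIdeal).factorization p))

/-- The Euler polynomials of two curves at `p` differ, also up to the exponents which make the degrees equal. -/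
def Differ {K : Type} [Field K] [NumberField K] {K' : Type} [Field K'] [NumberField K']
    (W : HeightOneSpectrum (𝓞 K) → WeierstrassCurve (𝓞 K)) (W' : HeightOneSpectrum (𝓞 K') → WeierstrassCurve (𝓞 K'))
    (p : ℕ) : Prop :=
  eulerPolynomial W p ^ (eulerPolynomial W' p).natDegree ≠ eulerPolynomial W' p ^ (eulerPolynomial W p).natDegree

/-- only finitely many places are bad -/
theorem bad_finite {K : Type} [Field K] [NumberField K] (E : WeierstrassCurve K) [E.IsElliptic]
    (W : HeightOneSpectrum (𝓞 K) → WeierstrassCurve (𝓞 K)) (hW : MinimalModels E W) :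
    {p : ℕ | p.Prime ∧ ¬ Run7.h401.SD.AG W p}.Finite := by
  classical
  obtain ⟨v₀, -⟩ := Run7.h401.SD.exists_above (K := K) Nat.prime_two
  -- the discriminant of one model
  have hΔ : (W v₀).Δ ≠ 0 := by
    intro h0
    obtain ⟨C, hC⟩ := (hW v₀).1
    have h1 : E.Δ = 0 := by
      rw [← hC, WeierstrassCurve.variableChange_Δ, WeierstrassCurve.map_Δ, h0, map_zero, mul_zero]
    have h2 : IsUnit E.Δ := WeierstrassCurve.IsElliptic.isUnit
    rw [h1] at h2
    exact not_isUnit_zero h2
  have hspan : Ideal.span {(W v₀).Δ} ≠ 0 := by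
    rw [Ne, Ideal.zero_eq_bot, Ideal.span_singleton_eq_bot]
    exact hΔ
  have hfin : {v : HeightOneSpectrum (𝓞 K) | (W v).Δ ∈ v.asIdeal}.Finite := by
    refine (Ideal.finite_factors hspan).subset fun v hv => ?_
    have h1 := (hW v).2 (W v₀) (hW v₀).1 1
    rw [pow_one] at h1
    show v.asIdeal ∣ Ideal.span {(W v₀).Δ}
    rw [Ideal.dvd_span_singleton]
    exact h1 hv
  refine (hfin.image (fun v : HeightOneSpectrum (𝓞 K) => (Pool.Agent.H921R2.TatePole.below v : ℕ))).subset
    fun p hp => ?_
  obtain ⟨hp1, hp2⟩ := hp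
  unfold Run7.h401.SD.AG at hp2
  push Not at hp2
  obtain ⟨v, hv, hd⟩ := hp2
  refine ⟨v, ?_, (Run7.h401.SD.mem_Gf hp1).1 hv⟩
  by_contra hcon
  apply hd
  unfold Pool.Agent.H341R2.EC.dlt
  rw [if_neg]
  exact hcon

/-- the places above `p` -/
theorem above_iff {K : Type} [Field K] [NumberField K] {p : ℕ} (hp : p.Prime) (v : HeightOneSpectrum (𝓞 K)) :
    ((p : ℕ) : 𝓞 K) ∈ v.asIdeal ↔ (Pool.Agent.H921R2.TatePole.below v : ℕ) = p := by
  constructor
  · intro h
    by_contra hne
    have h1 := (Pool.Agent.H921R2.TatePole.nm_eq v).2.2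
    have hq := (Pool.Agent.H921R2.TatePole.below v).2
    have hco : IsCoprime (((Pool.Agent.H921R2.TatePole.below v : ℕ) : ℤ)) ((p : ℕ) : ℤ) :=
      Nat.isCoprime_iff_coprime.2 ((Nat.coprime_primes hq hp).2 hne)
    obtain ⟨a, b, hab⟩ := hco
    have h2 : ((a : 𝓞 K) * ((Pool.Agent.H921R2.TatePole.below v : ℕ) : 𝓞 K) + (b : 𝓞 K) * ((p : ℕ) : 𝓞 K)) = 1 := by
      exact_mod_cast congrArg (fun n : ℤ => (n : 𝓞 K)) hab
    have h3 : (1 : 𝓞 K) ∈ v.asIdeal := by
      rw [← h2]
      exact v.asIdeal.add_mem (v.asIdeal.mul_mem_left _ h1) (v.asIdeal.mul_mem_left _ h)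
    exact v.isPrime.ne_top ((Ideal.eq_top_iff_one _).2 h3)
  · intro h
    have h1 := (Pool.Agent.H921R2.TatePole.nm_eq v).2.2
    rw [h] at h1
    exact h1

/-- **The joint smooth density.**  The first part says what the numbers `logValue W s` are; it holds for `W'` as well. -/
theorem result (K : Type) [Field K] [NumberField K] (E : WeierstrassCurve K) [E.IsElliptic]
    (W : HeightOneSpectrum (𝓞 K) → WeierstrassCurve (𝓞 K)) (hW : MinimalModels E W)
    (K' : Type) [Field K'] [NumberField K'] (E' : WeierstrassCurve K') [E'.IsElliptic]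
    (W' : HeightOneSpectrum (𝓞 K') → WeierstrassCurve (𝓞 K')) (hW' : MinimalModels E' W') :
    ((∀ s : ℂ, 3 / 2 < s.re → Tendsto (partialLog W s) atTop (𝓝 (logValue W s)) ∧
        Complex.exp (logValue W s) = LSeries W s) ∧
      ∀ᵐ t : ℝ, Tendsto (partialLog W (edgePoint t)) atTop (𝓝 (logValue W (edgePoint t)))) ∧
    ∀ σ σ' τ : ℝ, 0 ≤ σ → 0 ≤ σ' → (σ ≠ σ' ∨ τ ≠ 0 ∨ {p : ℕ | p.Prime ∧ Differ W W' p}.Infinite) →
      ∃ f : ℂ × ℂ → ℝ, ContDiff ℝ ∞ f ∧
        (∀ k n : ℕ, ∃ C : ℝ, ∀ z, ‖z‖ ^ k * ‖iteratedFDeriv ℝ n f z‖ ≤ C) ∧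
        (∀ z, 0 ≤ f z) ∧ Integrable f ∧ ∫ z, f z = 1 ∧
        ∀ B : Set (ℂ × ℂ), volume (frontier B) = 0 → ∀ ε : ℝ, 0 < ε → ∃ H₀ : ℝ, 0 < H₀ ∧ ∀ H : ℝ, H₀ ≤ H → ∀ T : ℝ,
          |(volume {t ∈ Set.Icc T (T + H) |
              (logValue W (σ + edgePoint t), logValue W' (σ' + edgePoint (t + τ))) ∈ B}).toReal / H
            - ∫ z in B, f z| ≤ ε := by
  have htr : ∀ (K : Type) [Field K] [NumberField K] (W : HeightOneSpectrum (𝓞 K) → WeierstrassCurve (𝓞 K))
      (v : HeightOneSpectrum (𝓞 K)), trace W v = (Pool.Agent.H341R2.EC.trc W v : ℂ) := by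
    intro K _ _ W v
    have h1 : (Nat.card {xy : (𝓞 K ⧸ v.asIdeal) × (𝓞 K ⧸ v.asIdeal) //
            ((W v).map (Ideal.Quotient.mk v.asIdeal)).toAffine.Equation xy.1 xy.2}) =
        Pool.Agent.H341R2.EC.aff (Pool.Agent.H341R2.EC.red v (W v)) := by
      unfold Pool.Agent.H341R2.EC.aff Pool.Agent.H341R2.EC.red
      refine Nat.card_congr (Equiv.subtypeEquivRight fun q => ?_)
      exact WeierstrassCurve.Affine.equation_iff ..
    unfold trace Pool.Agent.H341R2.EC.trc
    rw [h1]
    push_cast
    rfl
  have hlf : ∀ (K : Type) [Field K] [NumberField K] (W : HeightOneSpectrum (𝓞 K) → WeierstrassCurve (𝓞 K))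
      (v : HeightOneSpectrum (𝓞 K)) (s : ℂ), localFactor W v s = (Pool.Agent.R433.MD.lf W s v)⁻¹ := by
    intro K _ _ W v s
    have hne : ((Pool.Agent.H921R2.TatePole.nm v : ℕ) : ℂ) ≠ 0 := by
      exact_mod_cast (Pool.Agent.R433.MD.nm_pos v).ne'
    unfold localFactor Pool.Agent.R433.MD.lf
    rw [htr]
    congr 1
    congr 1
    unfold Pool.Agent.H341R2.EC.dlt
    rw [show (1 - 2 * s : ℂ) = 1 + (-2 * s) by ring, Complex.cpow_add _ _ hne, Complex.cpow_one]
    split_ifs
    · ring
    · rw [one_mul]
      rfl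
  have hlog : ∀ (K : Type) [Field K] [NumberField K] (W : HeightOneSpectrum (𝓞 K) → WeierstrassCurve (𝓞 K))
      (v : HeightOneSpectrum (𝓞 K)) (u : ℂ), 0 ≤ u.re →
      Complex.log (localFactor W v (3 / 2 + u)) = Pool.Agent.N534.EC.ll W u v := by
    intro K _ _ W v u hu
    rw [hlf]
    unfold Pool.Agent.N534.EC.ll
    rw [Complex.log_inv]
    have h2 := Run7.h113.LE.lf_ball W v u hu
    have h3 := Complex.abs_re_le_norm (Pool.Agent.R433.MD.lf W (3 / 2 + u) v - 1)
    rw [Complex.sub_re, Complex.one_re, abs_le] at h3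
    intro harg
    rw [Complex.arg_eq_pi_iff] at harg
    linarith [h3.1, harg.1]
  have hsum : ∀ (K : Type) [Field K] [NumberField K] (W : HeightOneSpectrum (𝓞 K) → WeierstrassCurve (𝓞 K)) (u : ℂ),
      0 ≤ u.re → ∀ x : ℕ, partialLog W (3 / 2 + u) x = Run7.h113.LE.Sx W x u := by
    intro K _ _ W u hu x
    unfold partialLog Run7.h113.LE.Sx
    have hf : {v : HeightOneSpectrum (𝓞 K) | Ideal.absNorm v.asIdeal < x}.Finite :=
      Pool.Agent.W350.EdgeNF.hfin x
    rw [finsum_mem_eq_finite_toFinset_sum _ hf]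
    exact Finset.sum_congr rfl fun v _ => hlog K W v u hu
  have hedge : ∀ (σ t : ℝ), (σ : ℂ) + edgePoint t = 3 / 2 + ((σ:ℂ) + t * Complex.I) := by
    intro σ t
    unfold edgePoint
    push_cast
    ring
  have hedge0 : ∀ t : ℝ, edgePoint t = 3 / 2 + (((0:ℝ):ℂ) + t * Complex.I) := by
    intro t
    rw [← hedge, Complex.ofReal_zero, zero_add]
  -- the limits
  have hlim : ∀ (K : Type) [Field K] [NumberField K] (W : HeightOneSpectrum (𝓞 K) → WeierstrassCurve (𝓞 K)) (u l : ℂ),
      0 ≤ u.re → Tendsto (fun x => Run7.h113.LE.Sx W x u) atTop (𝓝 l) →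
        Tendsto (partialLog W (3 / 2 + u)) atTop (𝓝 l) ∧ logValue W (3 / 2 + u) = l := by
    intro K _ _ W u l hu h
    have h1 : Tendsto (partialLog W (3 / 2 + u)) atTop (𝓝 l) := h.congr fun x => (hsum K W u hu x).symm
    exact ⟨h1, h1.limUnder_eq⟩
  have hLL : ∀ (K : Type) [Field K] [NumberField K] (W : HeightOneSpectrum (𝓞 K) → WeierstrassCurve (𝓞 K)) (u : ℂ),
      0 < u.re → Tendsto (partialLog W (3 / 2 + u)) atTop (𝓝 (Run7.h113.LE.LL W u)) ∧
        logValue W (3 / 2 + u) = Run7.h113.LE.LL W u := by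
    intro K _ _ W u hu
    refine hlim K W u _ hu.le ?_
    have h1 := Run7.h113.LE.LL_lim W hu u.im
    rw [Complex.re_add_im] at h1
    exact h1
  have hisl : ∀ (K : Type) [Field K] [NumberField K] (W : HeightOneSpectrum (𝓞 K) → WeierstrassCurve (𝓞 K)) (σ : ℝ),
      0 ≤ σ → Run7.h113.LE.IsLim W σ (fun t => logValue W (σ + edgePoint t)) := by
    intro K _ _ W σ hσ
    unfold Run7.h113.LE.IsLim
    rcases hσ.eq_or_lt with h | h
    · subst h
      filter_upwards [Run7.h113.LE.Ex_ae W] with t ht
      have h1 := Run7.h113.LE.Lam_tendsto W ht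
      rw [hedge, (hlim K W _ _ (by simp) h1).2]
      exact h1
    · refine Eventually.of_forall fun t => ?_
      have h1 := Run7.h113.LE.LL_lim W h t
      beta_reduce
      rw [hedge, (hlim K W _ _ (by simp [h.le]) h1).2]
      exact h1
  -- the Euler polynomials
  have hEP : ∀ (K : Type) [Field K] [NumberField K] (W : HeightOneSpectrum (𝓞 K) → WeierstrassCurve (𝓞 K)) (p : ℕ),
      p.Prime → eulerPolynomial W p = Run7.h401.SD.EP W p := by
    intro K _ _ W p hp
    unfold eulerPolynomial Run7.h401.SD.EP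
    have hset : {v : HeightOneSpectrum (𝓞 K) | ((p : ℕ) : 𝓞 K) ∈ v.asIdeal} = (Run7.h401.SD.Gf K p : Set _) := by
      ext v
      rw [Set.mem_ofPred_eq, above_iff hp, Finset.mem_coe, Run7.h401.SD.mem_Gf hp]
    rw [hset, finprod_mem_coe_finset]
    refine Finset.prod_congr rfl fun v hv => ?_
    have hb := (Run7.h401.SD.mem_Gf hp).1 hv
    have hdeg : (Ideal.absNorm v.asIdeal).factorization p = Pool.Agent.H921R2.TatePole.deg v := by
      unfold Pool.Agent.H921R2.TatePole.deg
      rw [hb]
    unfold Run7.h401.SD.Ep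
    rw [hdeg, htr]
    congr 3
    unfold Pool.Agent.H341R2.EC.dlt
    split_ifs
    · rw [zero_mul]
    · rw [one_mul]
      rfl
  refine ⟨⟨?_, ?_⟩, fun σ σ' τ hσ hσ' hne => ?_⟩
  · intro s hs
    obtain ⟨u, rfl⟩ : ∃ u : ℂ, s = 3 / 2 + u := ⟨s - 3 / 2, by ring⟩
    have hu : 0 < u.re := by
      have e : ((3:ℂ) / 2 + u).re = 3 / 2 + u.re := by simp
      rw [e] at hs
      linarith
    obtain ⟨h1, h2⟩ := hLL K W u hu
    rw [h2]
    refine ⟨h1, ?_⟩
    unfold Run7.h113.LE.LL LSeries
    have h3 : ∀ v, Pool.Agent.N534.EC.ll W u v = Complex.log (localFactor W v (3 / 2 + u)) := fun v =>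
      (hlog K W v u hu.le).symm
    simp_rw [h3]
    refine Complex.cexp_tsum_eq_tprod (fun v => ?_) ?_
    · rw [hlf]
      exact inv_ne_zero (Pool.Agent.R433.MD.lf_ne_zero W hs v)
    · exact (Run7.h113.LE.ll_summable W hu).congr h3
  · filter_upwards [Run7.h113.LE.Ex_ae W] with t ht
    obtain ⟨h1, h2⟩ := hlim K W _ _ (by simp) (Run7.h113.LE.Lam_tendsto W ht)
    rw [← hedge0] at h1 h2
    rw [h2]
    exact h1
  · have hinf : (Run7.h401.SD.Good2 W W' σ σ' τ).Infinite := by
      by_cases h1 : σ ≠ σ' ∨ τ ≠ 0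
      · exact Run7.h401.SD.good2_points (bad_finite E W hW) (bad_finite E' W' hW') h1
      · rw [not_or, not_not, not_not] at h1
        obtain ⟨h2, h3⟩ := h1
        have h4 : {p : ℕ | p.Prime ∧ Differ W W' p}.Infinite := by
          rcases hne with h | h | h
          · exact absurd h2 h
          · exact absurd h3 h
          · exact h
        rw [h3, ← h2]
        refine Run7.h401.SD.good2_curves σ (h4.mono fun p hp => ?_)
        refine ⟨hp.1, ?_⟩
        have h5 := hp.2
        unfold Differ at h5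
        rw [hEP K W p hp.1, hEP K' W' p hp.1] at h5
        exact h5
    exact Run7.h401.SD.smooth_joint W W' hσ hσ' τ hinf (hisl K W σ hσ) (hisl K' W' σ' hσ')

end Pool.Agent.Results.MP_7ed9c3_nt.JointSmoothDensity
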