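import Pool.Agent.Run7.h876.MM.Part2

/-!
# The moments of the L-series of the elliptic curves over a number field continue past the centre

`K` is any number field with a basis `ω` of its ring of integers, and `k` any integer.  Consider all
the curves `y² = x³ + A x + B` with nonzero discriminant whose coefficients have coordinates at most
`X` (for `A`) and `Y` (for `B`) in the basis.  As `X` and `Y` grow, the mean value of the `k`-th power
of the `L`-series (without the Euler factors at the places dividing the discriminant) converges for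
`Re s > 3/2`, and the limit is `ζ_K(2s - 1)^(k(k-1)/2) G(s)` with a function `G` which is holomorphic
in `Re s > 3/4` and positive at the real points `s > 3/4`.  So the limit of the `k`-th moments
continues past the centre `s = 1`, where it has a pole of the order exactly `k(k-1)/2`; for `k = 1`,
the mean value of the `L`-series itself, it is holomorphic and nonzero at the centre.  Moreover in
`Re s > 3/4` itself, where no Euler product converges, the continuation is the limit of the mean
values of the powers of the partial Euler products over `Nv ≤ Z`, normalised by the partial products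
of the zeta function, uniformly for `X, Y ≥ exp(Z^(1+θ))`.
-/

set_option autoImplicit false
open NumberField IsDedekindDomain

namespace Pool.Agent.Results.MP_7ed9c3_nt.MomentsPastTheCentre

open Run7.h876.MM

/-- **The moments of the `L`-series of the elliptic curves over a number field past the centre.** -/
theorem result (K : Type) [Field K] [NumberField K] (k : ℤ) (κ : ℕ) (hκ : 2 * (κ : ℤ) = k * (k - 1)) :
    ∃ G : ℂ → ℂ, DifferentiableOn ℂ G {s | 3 / 4 < s.re} ∧
      (∀ x : ℝ, 3 / 4 < x → ∃ r : ℝ, 0 < r ∧ G x = r) ∧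
      ∀ (ι : Type) [Fintype ι] [DecidableEq ι] (ω : Module.Basis ι ℤ (𝓞 K)),
        (∀ δ : ℝ, 0 < δ → ∀ ε : ℝ, 0 < ε → ∃ M : ℕ, ∀ X Y : ℕ, M ≤ X → M ≤ Y →
          ∀ s : ℂ, 3 / 2 + δ ≤ s.re →
          ‖mean ω X Y (fun W => LSeries W s ^ k) - dedekindZeta K (2 * s - 1) ^ κ * G s‖ ≤ ε) ∧
        (∀ σ : ℝ, 3 / 4 < σ → ∀ θ : ℝ, 0 < θ → ∀ ε : ℝ, 0 < ε → ∃ Z₀ : ℕ, ∀ Z : ℕ, Z₀ ≤ Z →
          ∀ X Y : ℕ, Real.exp ((Z : ℝ) ^ (1 + θ)) ≤ X → Real.exp ((Z : ℝ) ^ (1 + θ)) ≤ Y →
          ∀ s : ℂ, σ ≤ s.re →
          ‖mean ω X Y (fun W => partialProduct Z W s ^ k * partialZetaInv K Z (2 * s - 1) ^ κ) -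
            G s‖ ≤ ε) := by
  have hk : kap k = κ := by
    unfold kap
    rw [← hκ]
    omega
  refine ⟨GG K k, GG_diff k, fun x hx => GG_real hx k, fun ι _ _ ω => ⟨fun δ hδ ε hε => ?_, fun σ hσ θ hθ ε hε => ?_⟩⟩
  · have := part1 ω k hδ hε
    rwa [hk] at this
  · have := part2 ω k hσ hθ hε
    rwa [hk] at this

end Pool.Agent.Results.MP_7ed9c3_nt.MomentsPastTheCentre
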