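import Pool.Agent.Run7.h113.FG.ECfam

/-!
# The L-series of the elliptic curves over a number field converge in law to a random Euler product, up to the edge

Let `K` be a number field and let `E_c : y² = x³ + A(c) x + B(c)` be a family of elliptic curves, `A` and `B` polynomials
with integral coefficients in several integer variables `c`, such that `B` contains one of the variables only through a
linear term `β c_i`, `β ≠ 0`, and `A` does not contain it. Examples are the family of all curves `y² = x³ + a x + b`, `a`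
and `b` in the ring of integers, and one-parameter families as `y² = x³ + a x + b + t`.

Nothing is known about the analytic continuation of `L(E_c, s)` for general `K` and a typical member. We prove a limit
theorem for the whole functions `L(E_c, s)` up to the edge `Re s = 3/2`. The vectors `c` modulo the rational primes, chosen
independently and uniformly, define a random Euler product; almost surely its logarithm `Φ` continues analytically to
the half-plane `Re s > 1` to the right of the centre. If `ε_n → 0` and the members run through boxes with smallest side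
`≥ H_n`, where `ε_n log H_n → ∞`, then the functions `s ↦ log L(E_c, s + ε_n)` converge in distribution to `Φ`, uniformly
on the compact subsets `K` of the *closed* half-plane `Re s ≥ 3/2` (convergence in distribution in `C(K, ℂ)`). So the
typical L-series has, at distances larger than `1 / log H` from the edge, values and no singularities like the random
Euler product, which continues to `Re s > 1` without zeros. The probability that `|Φ(s)| ≥ V`, `Re s ≥ 3/2`, is at most
`exp (- exp (exp ((V - C) / (2 [K : ℚ]))))`, and so is, up to `C / log H`, the proportion of the members with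
`|log L(E_c, s)| ≥ V`, for every `s` with `Re s ≥ 3/2 + 1 / log H` and every box with sides `≥ H`.

In the Lean text the variable `s` is shifted by `3/2`, the edge is the line `Re s = 0`. The L-series are the Euler
products over the places which do not divide the discriminant of the equation.
-/

set_option autoImplicit false

namespace Pool.Agent.Results.MP_7ed9c3_nt.RandomEulerProduct

open NumberField IsDedekindDomain MeasureTheory Filter Topology
open Run7.h113.FE Run7.h113.FG
open Run7.h876.MM (nv curve)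

/-- The logarithm of the L-series of the curve `W` at the point `3/2 + s`. -/
noncomputable def logL {K : Type} [Field K] [NumberField K] (W : WeierstrassCurve (𝓞 K)) (s : ℂ) : ℂ :=
  ∑' v : HeightOneSpectrum (𝓞 K), ∑ j, -Complex.log (1 - frob W v j * (nv v : ℂ) ^ (-(3 / 2 + s)))

section

variable {K : Type} [Field K] [NumberField K] {ι : Type} [Fintype ι] [DecidableEq ι]

/-- The sum of the logarithms of the Euler factors at the places above the primes `p ≤ y`, at `3/2 + s`, where the
parameter modulo `p` is `ω p`. -/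
noncomputable def partialLog (A B : MvPolynomial ι (𝓞 K)) (y : ℕ) (ω : Om ι) (s : ℂ) : ℂ :=
  ∑ p ∈ pr y, ∑ v ∈ ab K p, ∑ j, -Complex.log (1 - frob (fam A B (lft (ω p))) v j * (nv v : ℂ) ^ (-(3 / 2 + s)))

open Classical in
/-- The restriction of a function to `T`, as a continuous function (`0` if it is not continuous). -/
noncomputable def toC (T : Set ℂ) (F : ℂ → ℂ) : C(T, ℂ) :=
  if h : ContinuousOn F T then ⟨T.domRestrict F, continuousOn_iff_continuous_domRestrict.mp h⟩ else 0

/-- The logarithms are logarithms of the L-series, analytic in the half-plane of absolute convergence. -/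
def EulerLogs (A B : MvPolynomial ι (𝓞 K)) : Prop :=
  ∀ c : ι → ℤ, (∀ s : ℂ, 0 < s.re → Complex.exp (logL (fam A B c) s) = Run7.h876.MM.LSeries (fam A B c) (3 / 2 + s)) ∧
    DifferentiableOn ℂ (logL (fam A B c)) {s | 0 < s.re}

/-- Almost surely the logarithm `Φ` of the random Euler product is analytic in `Re s > -1/2` (to the right of the
centre), the locally uniform limit of the partial sums over `p ≤ 2^k`, and on the closed half-plane `Re s ≥ 0` the locally
uniform limit of all the partial sums. -/
def Converges (A B : MvPolynomial ι (𝓞 K)) (Φ : Om ι → ℂ → ℂ) : Prop :=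
  ∀ᵐ ω ∂mu ι, DifferentiableOn ℂ (Φ ω) {s | -(1 / 2) < s.re} ∧
    TendstoLocallyUniformlyOn (fun k : ℕ => partialLog A B (2 ^ k) ω) (Φ ω) atTop {s | -(1 / 2) < s.re} ∧
    ∀ T : Set ℂ, IsCompact T → (∀ s ∈ T, 0 ≤ s.re) →
      TendstoUniformlyOn (fun y : ℕ => partialLog A B y ω) (Φ ω) atTop T

/-- **The functional limit theorem**: convergence in distribution of the logarithms of the L-series of the nonsingular
members in boxes with smallest side at least `H_n`, at the distance `ε_n` from the edge, uniformly on compact subsets of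
the closed half-plane. -/
def FunctionalLimit (A B : MvPolynomial ι (𝓞 K)) (Φ : Om ι → ℂ → ℂ) : Prop :=
  ∀ T : Set ℂ, IsCompact T → (∀ s ∈ T, 0 ≤ s.re) → ∀ (N : ℕ → ι → ℕ) (H : ℕ → ℕ), (∀ n i, H n ≤ N n i) →
    Tendsto H atTop atTop → ∀ ε : ℕ → ℝ, (∀ n, 0 < ε n) → Tendsto ε atTop (𝓝 0) →
    Tendsto (fun n : ℕ => ε n * Real.log (H n)) atTop atTop →
    ∀ G : C(T, ℂ) → ℝ, Continuous G → (∃ C, ∀ x, |G x| ≤ C) →
      Integrable (fun ω => G (toC T (Φ ω))) (mu ι) ∧
      Tendsto (fun n : ℕ => fmean A B (N n) fun c => G (toC T fun s => logL (fam A B c) (ε n + s))) atTop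
        (𝓝 (∫ ω, G (toC T (Φ ω)) ∂mu ι))

open Classical in
/-- **Large deviations**, for the random Euler product and for the nonsingular members of a box with sides at least
`H`. -/
def Tails (A B : MvPolynomial ι (𝓞 K)) (Φ : Om ι → ℂ → ℂ) (C : ℝ) : Prop :=
  ∀ V : ℝ, C ≤ V →
    (∀ s : ℂ, 0 ≤ s.re →
      (mu ι).real {ω | V ≤ ‖Φ ω s‖} ≤ Real.exp (-Real.exp (Real.exp ((V - C) / (2 * Module.finrank ℚ K))))) ∧
    ∀ H : ℕ, 2 ≤ H → ∀ N : ι → ℕ, (∀ i, H ≤ N i) → ∀ s : ℂ, 1 / Real.log H ≤ s.re →
      (((mem A B N).filter fun c => V ≤ ‖logL (fam A B c) s‖).card : ℝ) / ((mem A B N).card : ℝ) ≤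
        Real.exp (-Real.exp (Real.exp ((V - C) / (2 * Module.finrank ℚ K)))) + C / Real.log H

/-- The whole theorem for a family of curves. -/
def HasRandomEulerProduct (A B : MvPolynomial ι (𝓞 K)) : Prop :=
  EulerLogs A B ∧ ∃ (Φ : Om ι → ℂ → ℂ) (C : ℝ), 0 ≤ C ∧ Converges A B Φ ∧ FunctionalLimit A B Φ ∧ Tails A B Φ C

variable {A B : MvPolynomial ι (𝓞 K)} {i₀ : ι} {β : 𝓞 K}

lemma expo (s : ℂ) : ((1 / 2 : ℝ) : ℂ) + 1 + s = 3 / 2 + s := by
  push_cast
  ring

lemma logL_eq (W : WeierstrassCurve (𝓞 K)) (s : ℂ) : logL W s = ∑' v, lf (frob W v) (1 / 2) v s := by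
  unfold logL lf
  simp only [expo]
  rfl

lemma partial_eq (hV : Vertical A B i₀ β) (hβ : β ≠ 0) (y : ℕ) (ω : Om ι) :
    partialLog A B y ω = (ecPL hV hβ).loc.sm (pr y) ω := by
  funext s
  unfold partialLog Loc.sm
  refine Finset.sum_congr rfl fun p _ => Finset.sum_congr rfl fun v _ => ?_
  unfold lf
  simp only [expo]
  rfl

lemma Qeq (hV : Vertical A B i₀ β) (hβ : β ≠ 0) (c : ι → ℤ) {s : ℂ} (hs : 0 < s.re) :
    logL (fam A B c) s = (ecPL hV hβ).loc.Q (redP c) s ∧
      Complex.exp (logL (fam A B c) s) = Run7.h876.MM.LSeries (fam A B c) (3 / 2 + s) := by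
  obtain ⟨_, h2, h3⟩ := Q_places (ecPL hV hβ) (redP c) (fun v => frob (fam A B c) v) (fun v => by
    funext j
    exact (al_red A B rfl c j).symm) hs
  refine ⟨by rw [logL_eq]; exact h2, ?_⟩
  rw [logL_eq, h3]
  unfold Run7.h876.MM.LSeries
  refine tprod_congr fun v => ?_
  unfold fam
  rw [frob_factor]
  simp only [expo]
  rfl

lemma main (hV : Vertical A B i₀ β) (hβ : β ≠ 0) : HasRandomEulerProduct A B := by
  set L := (ecPL hV hβ).loc with hL
  have hd : (0 : ℝ) < Module.finrank ℚ K := by exact_mod_cast Module.finrank_pos (R := ℚ) (M := K)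
  have hMpos : (0 : ℝ) < (2 : ℕ) * Module.finrank ℚ K := by positivity
  have hpart : ∀ y ω, partialLog A B y ω = L.sm (pr y) ω := partial_eq hV hβ
  have hlogQ : ∀ c : ι → ℤ, ∀ {s : ℂ}, 0 < s.re → logL (fam A B c) s = L.Q (redP c) s :=
    fun c s hs => (Qeq hV hβ c hs).1
  have hdiff : ∀ c : ι → ℤ, DifferentiableOn ℂ (logL (fam A B c)) {s | 0 < s.re} := fun c =>
    (L.Q_diff (redP c)).congr fun s hs => hlogQ c hs
  refine ⟨fun c => ⟨fun s hs => (Qeq hV hβ c hs).2, hdiff c⟩, ?_⟩
  obtain ⟨C1, hC10, hC1⟩ := L.tail hMpos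
  obtain ⟨C2, hC20, hC2⟩ := tail_samp L hMpos
  have hcontT : ∀ {T : Set ℂ}, (∀ s ∈ T, 0 ≤ s.re) → ∀ {ε : ℝ}, 0 < ε → ∀ c : ι → ℤ,
      ContinuousOn (fun s => logL (fam A B c) ((ε : ℂ) + s)) T := by
    intro T hT0 ε hε c
    refine (hdiff c).continuousOn.comp (by fun_prop) fun s hs => ?_
    have := hT0 s hs
    change 0 < ((ε : ℂ) + s).re
    simp only [Complex.add_re, Complex.ofReal_re]
    linarith
  have happ : ∀ {T : Set ℂ} {F : ℂ → ℂ}, ContinuousOn F T → ∀ s : T, toC T F s = F s := by
    intro T F hF s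
    unfold toC
    rw [dif_pos hF]
    rfl
  refine ⟨L.Lam, max (C1 + 1) (C2 + 4), by positivity, ?_, ?_, ?_⟩
  · filter_upwards [L.ae_conv] with ω hω
    refine ⟨Loc.Lam_diff L hω, ?_, fun T hT hT0 => ?_⟩
    · simp only [hpart]
      exact hω
    · have h1 : TendstoUniformlyOn (fun (k : ℕ) s => L.sm (pr (2 ^ k)) ω s) (L.Lam ω) atTop T :=
        (tendstoLocallyUniformlyOn_iff_forall_isCompact isOpen_HP).mp hω T (Loc.edge_sub hT0) hT
      have h3 := L.unif_edge hT0 ω h1
      simp only [hpart]
      exact h3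
  · rintro T hT hT0 N H hN hH ε hε0 hε hεL G hG ⟨C, hC⟩
    have h1 := lim_final L (fun n => eqd_box (H n) (N n) (hN n)) hH hT hT0 hε0 hε hεL
      (fun n c => toC T fun s => logL (fam A B c) (ε n + s)) (ρ := fun _ => 0)
      tendsto_const_nhds (fun n c s => by
        rw [happ (hcontT hT0 (hε0 n) c) s, hlogQ c (by
          have := hT0 s s.2
          simp only [Complex.add_re, Complex.ofReal_re]
          have := hε0 n
          linarith), sub_self, norm_zero]) (fun ω => toC T (L.Lam ω)) (by
        filter_upwards [L.ae_cont hT (Loc.edge_sub hT0)] with ω hω s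
        exact happ hω s) G hG hC
    refine ⟨h1.1, ?_⟩
    have h2 := h1.2
    simp only [integral_gbx] at h2
    have h3 : Tendsto (fun n : ℕ => fmean A B (N n) (fun c => G (toC T fun s => logL (fam A B c) (ε n + s))) -
        gm (N n) (fun c => G (toC T fun s => logL (fam A B c) (ε n + s)))) atTop (𝓝 0) := by
      have h4 : Tendsto (fun n : ℕ => 4 * C / (2 * (H n : ℝ) + 1)) atTop (𝓝 0) := by
        have h5 : Tendsto (fun n : ℕ => (2 * (H n : ℝ) + 1)) atTop atTop :=
          tendsto_atTop_add_const_right _ _ ((tendsto_natCast_atTop_atTop.comp hH).const_mul_atTop two_pos)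
        exact h5.const_div_atTop _
      refine squeeze_zero_norm (fun n => ?_) h4
      rw [Real.norm_eq_abs]
      exact fmean_close hV hβ (hN n) _ fun c => hC _
    have h6 := h3.add h2
    rw [zero_add] at h6
    refine h6.congr fun n => ?_
    ring
  · intro V hV'
    have hm1 := le_max_left (C1 + 1) (C2 + 4)
    have hm2 := le_max_right (C1 + 1) (C2 + 4)
    have e2 : ((2 : ℕ) : ℝ) * Module.finrank ℚ K = 2 * Module.finrank ℚ K := by push_cast; rfl
    rw [← e2]
    refine ⟨fun s hs => ?_, fun H hH N hN s hs => ?_⟩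
    · have h1 := L.tail_Lam (V := V - 1) hs (fun z => hC1 (V - 1) (by linarith) s hs z)
      rw [sub_add_cancel] at h1
      refine h1.trans ?_
      have h2 : (V - max (C1 + 1) (C2 + 4)) / ((2 : ℕ) * Module.finrank ℚ K) ≤ (V - 1 - C1) / ((2 : ℕ) * Module.finrank ℚ K) :=
        div_le_div_of_nonneg_right (by linarith) hMpos.le
      exact Real.exp_le_exp.mpr (neg_le_neg (Real.exp_le_exp.mpr (Real.exp_le_exp.mpr h2)))
    · have hHr : (2 : ℝ) ≤ H := by exact_mod_cast hH
      have hlog : 0 < Real.log H := Real.log_pos (by linarith)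
      have hs0 : 0 < s.re := lt_of_lt_of_le (by positivity) hs
      classical
      set S : Set (ι → ℤ) := {c | V ≤ ‖logL (fam A B c) s‖} with hS
      have h1 := hC2 V (by linarith) H hH s hs (gbx N) (eqd_box H N hN) S (fun c hc => by
        rw [← hlogQ c hs0]
        exact hc)
      have hmS : MeasurableSet S := S.to_countable.measurableSet
      have h2 : (gbx N).real S = gm N (S.indicator fun _ => 1) := by
        rw [← integral_gbx, integral_indicator hmS, setIntegral_const, smul_eq_mul, mul_one]
      have h3 := fmean_close hV hβ hN (S.indicator fun _ => (1 : ℝ)) (C := 1) (fun c => by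
        rw [Set.indicator_apply]
        split_ifs <;> norm_num)
      have h4 : fmean A B N (S.indicator fun _ => (1 : ℝ)) =
          (((mem A B N).filter fun c => V ≤ ‖logL (fam A B c) s‖).card : ℝ) / ((mem A B N).card : ℝ) := by
        unfold fmean
        congr 1
        rw [Finset.card_eq_sum_ones, Finset.sum_filter]
        push_cast
        refine Finset.sum_congr rfl fun c _ => ?_
        rw [Set.indicator_apply]
        rfl
      rw [h4, ← h2] at h3
      have h5 : (4 : ℝ) * 1 / (2 * H + 1) ≤ 4 / Real.log H := by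
        rw [mul_one]
        refine div_le_div_of_nonneg_left (by norm_num) hlog ?_
        have := Real.log_le_sub_one_of_pos (show (0 : ℝ) < H by linarith)
        linarith
      have h6 : (V - max (C1 + 1) (C2 + 4)) / ((2 : ℕ) * Module.finrank ℚ K) ≤ (V - C2) / ((2 : ℕ) * Module.finrank ℚ K) :=
        div_le_div_of_nonneg_right (by linarith) hMpos.le
      have h7 : Real.exp (-Real.exp (Real.exp ((V - C2) / ((2 : ℕ) * Module.finrank ℚ K)))) ≤
          Real.exp (-Real.exp (Real.exp ((V - max (C1 + 1) (C2 + 4)) / ((2 : ℕ) * Module.finrank ℚ K)))) :=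
        Real.exp_le_exp.mpr (neg_le_neg (Real.exp_le_exp.mpr (Real.exp_le_exp.mpr h6)))
      have h8 : C2 / Real.log H + 4 / Real.log H ≤ max (C1 + 1) (C2 + 4) / Real.log H := by
        rw [← add_div]
        exact div_le_div_of_nonneg_right hm2 hlog.le
      have h9 := (abs_le.mp h3).2
      linarith

/-! ### the family of all curves -/

/-- The polynomial `∑ X_i ω_i` in the first variables. -/
noncomputable def allA {κ : Type} [Fintype κ] (ω : Module.Basis κ ℤ (𝓞 K)) : MvPolynomial (κ ⊕ κ) (𝓞 K) :=
  ∑ i, MvPolynomial.C (ω i) * MvPolynomial.X (Sum.inl i)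

/-- The polynomial `∑ X_i ω_i` in the second variables. -/
noncomputable def allB {κ : Type} [Fintype κ] (ω : Module.Basis κ ℤ (𝓞 K)) : MvPolynomial (κ ⊕ κ) (𝓞 K) :=
  ∑ i, MvPolynomial.C (ω i) * MvPolynomial.X (Sum.inr i)

lemma ev_all {κ : Type} [Fintype κ] (ω : Module.Basis κ ℤ (𝓞 K)) (c : κ ⊕ κ → ℤ) :
    ev c (allA ω) = ∑ i, c (Sum.inl i) • ω i ∧ ev c (allB ω) = ∑ i, c (Sum.inr i) • ω i := by
  unfold ev allA allB
  constructor
  · rw [map_sum]
    refine Finset.sum_congr rfl fun i _ => ?_
    rw [map_mul, MvPolynomial.eval_C, MvPolynomial.eval_X, zsmul_eq_mul, mul_comm]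
  · rw [map_sum]
    refine Finset.sum_congr rfl fun i _ => ?_
    rw [map_mul, MvPolynomial.eval_C, MvPolynomial.eval_X, zsmul_eq_mul, mul_comm]

lemma all_vertical {κ : Type} [Fintype κ] [DecidableEq κ] (ω : Module.Basis κ ℤ (𝓞 K)) (i : κ) :
    Vertical (allA ω) (allB ω) (Sum.inr i) (ω i) := by
  intro c t
  rw [(ev_all ω _).1, (ev_all ω _).2, (ev_all ω c).1, (ev_all ω c).2]
  constructor
  · refine Finset.sum_congr rfl fun j _ => ?_
    rw [Pi.add_apply, Pi.single_eq_of_ne (by simp), add_zero]
  · simp only [Pi.add_apply, add_smul, Finset.sum_add_distrib]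
    congr 1
    rw [Finset.sum_eq_single i]
    · rw [Pi.single_eq_same, zsmul_eq_mul]
    · intro j _ hj
      rw [Pi.single_eq_of_ne (fun h => hj (Sum.inr_injective h)), zero_smul]
    · intro h
      exact absurd (Finset.mem_univ i) h

end

/-- **Every polynomial family which contains a vertical direction; the family of all curves.** -/
theorem result (K : Type) [Field K] [NumberField K] :
    (∀ (ι : Type) [Fintype ι] [DecidableEq ι] (A B : MvPolynomial ι (𝓞 K)) (i₀ : ι) (β : 𝓞 K), β ≠ 0 →
      Vertical A B i₀ β → HasRandomEulerProduct A B) ∧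
    (∀ (κ : Type) [Fintype κ] [DecidableEq κ] (ω : Module.Basis κ ℤ (𝓞 K)),
      (∀ c : κ ⊕ κ → ℤ, fam (allA ω) (allB ω) c =
        curve (∑ i, c (Sum.inl i) • ω i) (∑ i, c (Sum.inr i) • ω i)) ∧
      HasRandomEulerProduct (allA ω) (allB ω)) := by
  refine ⟨fun ι _ _ A B i₀ β hβ hV => main hV hβ, fun κ _ _ ω => ⟨fun c => ?_, ?_⟩⟩
  · unfold fam
    rw [(ev_all ω c).1, (ev_all ω c).2]
  · have hne : Nonempty κ := by
      by_contra h
      rw [not_nonempty_iff] at h
      have h1 := ω.ext_elem_iff (x := (1 : 𝓞 K)) (y := 0)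
      have h2 : (1 : 𝓞 K) = 0 := h1.2 fun i => (IsEmpty.false i).elim
      exact one_ne_zero h2
    obtain ⟨i⟩ := hne
    exact main (all_vertical ω i) (ω.ne_zero i)

end Pool.Agent.Results.MP_7ed9c3_nt.RandomEulerProduct
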