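import Mathlib
import Pool.Agent.Run7.h508.BR.Zero
import Pool.Agent.Run7.h508.BR.PC
import Pool.Agent.Run7.h508.BR.ContU
import Pool.Agent.Run7.h508.BR.Exact
import Pool.Agent.Run7.h508.BR.LCont

/-!
# The continuation of the L-series of an elliptic curve over all number fields and everywhere
unramified extensions of prime degree

`E` is an elliptic curve over a number field `k`, given by an integral Weierstrass equation. For a
set `U` (for example `ℂ` or a half-plane), a subset `Q` and a function `D` on `Q`, the property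
`Continues U Q D` of `L(E/K, s)`, `K ⊇ k`, says that some power has a meromorphic continuation to
`U`, and that `L(E/K, s)` has the order `D(z) [K : k]` at the points `z` of `Q`. Examples:

* `U = ℂ`, `Q` empty: continuation to `ℂ`;
* `U = ℂ`, `Q = {0, -1, -2, ...}`, `D = [k : ℚ]`: continuation with the trivial zeros which the
  gamma factors predict;
* `U = Q` a half-plane `Re s > σ`, `D = 0`: `L(E/K, s)` has a holomorphic continuation without zeros
  to `Re s > σ` (third part of the theorem).

If this holds over one totally complex field `K₀ ⊇ k`, and for every real place `v` of `k` over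
one field `K_v ⊇ k` whose real places all lie over `v` (for `k = ℚ`: over `ℚ`), then it holds over
all number fields `K ⊇ k` if and only if it holds for the quotients `L(E/L, s) / L(E/K, s)`, where
`L/K` is an everywhere unramified extension of prime degree of a totally complex field, completely
split above a given integer `m`.
-/

set_option autoImplicit false
set_option linter.unusedSectionVars false

namespace Pool.Agent.Results.MP_7ed9c3_nt.UnramifiedContinuation

open NumberField IsDedekindDomain

/-- The number of the affine points of the reduction of `W` modulo the prime `v` with coordinates in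
the extension of degree `n` of the residue field of `v`. -/
noncomputable def affinePoints {K : Type} [Field K] [NumberField K] (W : WeierstrassCurve (𝓞 K))
    (v : HeightOneSpectrum (𝓞 K)) (n : ℕ) : ℕ :=
  Nat.card {z : AlgebraicClosure v.asIdeal.ResidueField × AlgebraicClosure v.asIdeal.ResidueField //
    z.1 ^ (Ideal.absNorm v.asIdeal ^ n) = z.1 ∧ z.2 ^ (Ideal.absNorm v.asIdeal ^ n) = z.2 ∧
      (W.map (algebraMap (𝓞 K) (AlgebraicClosure v.asIdeal.ResidueField))).toAffine.Equation
        z.1 z.2}

open Classical in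
/-- The trace `α ^ n + β ^ n = q ^ n + 1 - #E(𝔽_{q ^ n})` of the `n`-th power of the Frobenius
automorphism at `v`, `q = N(v)`; zero when `v` divides the discriminant. -/
noncomputable def trace {K : Type} [Field K] [NumberField K] (W : WeierstrassCurve (𝓞 K))
    (v : HeightOneSpectrum (𝓞 K)) (n : ℕ) : ℂ :=
  if W.Δ ∈ v.asIdeal then 0 else (Ideal.absNorm v.asIdeal : ℂ) ^ n - affinePoints W v n

/-- The term of `log L(E/K, s)` of the power `v ^ n`. -/
noncomputable def term {K : Type} [Field K] [NumberField K] (W : WeierstrassCurve (𝓞 K)) (s : ℂ)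
    (x : HeightOneSpectrum (𝓞 K) × ℕ+) : ℂ :=
  trace W x.1 x.2 / ((x.2 : ℕ) * (Ideal.absNorm x.1.asIdeal : ℂ) ^ (((x.2 : ℕ) : ℂ) * s))

/-- `log L(E/K, s)`, `Re s > 2`; the Euler factors at the primes which divide the discriminant are
left out. -/
noncomputable def logL {K : Type} [Field K] [NumberField K] (W : WeierstrassCurve (𝓞 K)) (s : ℂ) :
    ℂ := ∑' x : HeightOneSpectrum (𝓞 K) × ℕ+, term W s x

/-- For some `n > 0` the `n`-th power of the function `exp (l s)`, `Re s > 2`, has a meromorphic
continuation to `U`, of order `n d D(z)` at the points `z` of `Q`. -/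
def Continues (U Q : Set ℂ) (D : ℂ → ℤ) (l : ℂ → ℂ) (d : ℤ) : Prop :=
  ∃ n : ℕ, 0 < n ∧ ∃ Z : ℂ → ℂ, MeromorphicOn Z U ∧
    (∀ s : ℂ, 2 < s.re → Z s = Complex.exp (n * l s)) ∧
    ∀ z ∈ Q, meromorphicOrderAt Z z = ((n * (d * D z) : ℤ) : WithTop ℤ)

/-- The equation over a larger field. -/
noncomputable def extendTo {k : Type} [Field k] [NumberField k] (W : WeierstrassCurve (𝓞 k))
    (K : Type) [Field K] [NumberField K] [Algebra k K] : WeierstrassCurve (𝓞 K) :=
  W.map (algebraMap (𝓞 k) (𝓞 K))

/-- The continuation of `L(E/K, s)` to `U`, of order `D(z) [K : k]` at the points `z` of `Q`. -/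
def Continuation {k : Type} [Field k] [NumberField k] (W : WeierstrassCurve (𝓞 k)) (U Q : Set ℂ)
    (D : ℂ → ℤ) (K : Type) [Field K] [NumberField K] [Algebra k K] : Prop :=
  Continues U Q D (logL (extendTo W K)) (Module.finrank k K)

/-- The continuation of the quotient `L(E/L, s) / L(E/K, s)` to `U`, of order
`D(z) ([L : k] - [K : k])` at the points `z` of `Q`. -/
def QuotientContinuation {k : Type} [Field k] [NumberField k] (W : WeierstrassCurve (𝓞 k))
    (U Q : Set ℂ) (D : ℂ → ℤ) (K L : Type) [Field K] [NumberField K] [Algebra k K] [Field L]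
    [NumberField L] [Algebra k L] : Prop :=
  Continues U Q D (fun s => logL (extendTo W L) s - logL (extendTo W K) s)
    (Module.finrank k L - Module.finrank k K)

/-- All inertia groups of `L/K` are trivial, and the decomposition groups of the primes above `m`
are trivial. -/
def UnramifiedSplit (m : ℕ) (K L : Type) [Field K] [Field L] [Algebra K L] : Prop :=
  ∀ P : Ideal (𝓞 L), P.IsMaximal → ∀ g : L ≃ₐ[K] L,
    ((∀ x y : 𝓞 L, (y : L) = g x → y - x ∈ P) → g = 1) ∧
    ((m : 𝓞 L) ∈ P → (∀ x y : 𝓞 L, (y : L) = g x → (y ∈ P ↔ x ∈ P)) → g = 1)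

/-- The continuation of the quotients in the everywhere unramified extensions of prime degree, split
above `m`, of totally complex fields `K ⊇ k`. -/
def UnramifiedCase {k : Type} [Field k] [NumberField k] (W : WeierstrassCurve (𝓞 k)) (m : ℕ)
    (U Q : Set ℂ) (D : ℂ → ℤ) : Prop :=
  ∀ (K L : Type) [Field K] [NumberField K] [Field L] [NumberField L] [Algebra k K] [Algebra K L]
    [Algebra k L] [IsScalarTower k K L] [IsGalois K L], IsTotallyComplex K →
    (Module.finrank K L).Prime → UnramifiedSplit m K L → QuotientContinuation W U Q D K L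

/-- The number of the real embeddings of `K` over the embedding `v` of `k`. -/
noncomputable def realAbove {k : Type} [Field k] (v : k →+* ℂ) (K : Type) [Field K] [Algebra k K] :
    ℕ := Nat.card {χ : K →+* ℂ // ComplexEmbedding.IsReal χ ∧ χ.comp (algebraMap k K) = v}

open Pool.Agent.Run7.h508.BR in
lemma unrSplit_of {m : ℕ} {K L : Type} [Field K] [Field L] [Algebra K L]
    (h : UnrSplit m K L) : UnramifiedSplit m K L := by
  intro P hP g
  refine ⟨fun h1 => (h P hP).1 g fun x => h1 x _ rfl, fun hm h1 => (h P hP).2 hm g fun x =>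
    h1 x _ rfl⟩

open Pool.Agent.Run7.h508.BR in
lemma cont_iff {U Q : Set ℂ} {D : ℂ → ℤ} {l l' : ℂ → ℂ} {r : ℤ}
    (h : ∀ s : ℂ, 2 < s.re → l s = l' s) : Continues U Q D l r ↔ UWCont U Q D l' r := by
  constructor
  · rintro ⟨n, hn, Z, h1, h2, h3⟩
    refine ⟨n, hn, n * r, by push_cast; rfl, Z, h1, fun s hs => ?_, fun z hz => ?_⟩
    · rw [h2 s hs, h s hs, Pi.smul_apply, nsmul_eq_mul]
    · rw [h3 z hz, mul_assoc]
  · rintro ⟨n, hn, m, hm, Z, h1, h2, h3⟩
    refine ⟨n, hn, Z, h1, fun s hs => ?_, fun z hz => ?_⟩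
    · rw [h2 s hs, h s hs, Pi.smul_apply, nsmul_eq_mul]
    · have h4 : m = n * r := by exact_mod_cast hm
      rw [h3 z hz, h4, mul_assoc]

open Pool.Agent.Run7.h508.BR in
lemma trace_eq {K : Type} [Field K] [NumberField K] (W : WeierstrassCurve (𝓞 K))
    (x : HeightOneSpectrum (𝓞 K) × ℕ+) : trace W x.1 x.2 = wE W x := rfl

open Pool.Agent.Run7.h508.BR in
lemma logL_eq {k : Type} [Field k] [NumberField k] (W : WeierstrassCurve (𝓞 k)) (K : Type)
    [Field K] [NumberField K] [Algebra k K] (s : ℂ) : logL (extendTo W K) s = Lam (wE W) K s := by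
  unfold logL Lam
  congr 1
  funext x
  unfold term
  rw [trace_eq, extendTo, wE_base]
  rfl

section proof

open Pool.Agent.Run7.h508.BR

variable {k : Type} [Field k] [NumberField k] (W : WeierstrassCurve (𝓞 k)) {U Q : Set ℂ}
  (D : ℂ → ℤ) (hQ : Q ⊆ U)

/-- the pair of the logarithm of the L-function and the degree, modulo the conjecture -/
noncomputable def defect : FieldFun k (((ℂ → ℂ) × ℚ) ⧸ uSub U Q D hQ) :=
  ((lfun (wE W) (wE_bound W)).pair (degFun k)).comp (uSub U Q D hQ).mkQ.toAddMonoidHom

/-- the pair of the logarithm of the L-function and the degree -/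
noncomputable def vec (K : Type) [Field K] [NumberField K] [Algebra k K] : (ℂ → ℂ) × ℚ :=
  (fun s => if 2 < s.re then Lam (wE W) K s else 0, (Module.finrank k K : ℚ))

lemma defect_f (K : Type) [Field K] [NumberField K] [Algebra k K] :
    (defect W D hQ).f K = (uSub U Q D hQ).mkQ (vec W K) := by
  change (uSub U Q D hQ).mkQ (((lfun (wE W) (wE_bound W)).f K, (degFun k).f K)) = _
  congr 1

lemma cont_iff_zero (K : Type) [Field K] [NumberField K] [Algebra k K] :
    Continuation W U Q D K ↔ (defect W D hQ).f K = 0 := by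
  rw [defect_f, Submodule.mkQ_apply, Submodule.Quotient.mk_eq_zero, mem_uSub, Continuation,
    cont_iff (l' := (vec W K).1) (fun s hs => by
      rw [logL_eq]
      change _ = if 2 < s.re then Lam (wE W) K s else 0
      rw [if_pos hs])]
  rfl

lemma quot_iff (K L : Type) [Field K] [NumberField K] [Algebra k K] [Field L]
    [NumberField L] [Algebra k L] :
    QuotientContinuation W U Q D K L ↔ (defect W D hQ).f K = (defect W D hQ).f L := by
  rw [eq_comm, ← sub_eq_zero, defect_f, defect_f, ← map_sub, Submodule.mkQ_apply,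
    Submodule.Quotient.mk_eq_zero, mem_uSub, QuotientContinuation,
    cont_iff (l' := (vec W L - vec W K).1) (fun s hs => by
      rw [logL_eq, logL_eq]
      change _ = (if 2 < s.re then Lam (wE W) L s else 0) - (if 2 < s.re then Lam (wE W) K s else 0)
      rw [if_pos hs, if_pos hs])]
  have h1 : (vec W L - vec W K).2 =
      (((Module.finrank k L : ℤ) - (Module.finrank k K : ℤ) : ℤ) : ℚ) := by
    push_cast
    rfl
  rw [h1]

lemma noChange_of {m : ℕ} (h : UnramifiedCase W m U Q D) : NoChange (defect W D hQ) m := by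
  intro K L _ _ _ _ _ _ _ _ _ hK hp hu
  exact (quot_iff W D hQ K L).mp (h K L hK hp (unrSplit_of hu))

include hQ in
/-- the relations -/
lemma relation_of {m : ℕ} (hm : m ≠ 0) (h : UnramifiedCase W m U Q D) (K₀ : Type)
    [Field K₀] [NumberField K₀] [Algebra k K₀] (hK₀ : IsTotallyComplex K₀) (ι : Type) [Fintype ι]
    (K : ι → Type) [∀ i, Field (K i)] [∀ i, NumberField (K i)] [∀ i, Algebra k (K i)] (t : ι → ℤ)
    (ht : ∀ v : k →+* ℂ, ∑ i, t i * (realAbove v (K i) : ℤ) = 0) :
    Continues U Q D (fun s => ∑ i, t i * (logL (extendTo W (K i)) s - logL (extendTo W K₀) s))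
      (∑ i, t i * ((Module.finrank k (K i) : ℤ) - Module.finrank k K₀)) := by
  have key := real_formula_base (defect W D hQ) hm (noChange_of W D hQ h) K₀ hK₀ K
    (fun i => (t i : ℚ)) (fun v => by
      have h1 := congrArg (fun z : ℤ => (z : ℚ)) (ht v)
      push_cast at h1
      exact h1)
  have h1 : ∀ i, (t i : ℚ) • ((defect W D hQ).f (K i) - (defect W D hQ).f K₀) =
      (uSub U Q D hQ).mkQ ((t i : ℚ) • (vec W (K i) - vec W K₀)) := by
    intro i
    rw [defect_f, defect_f, map_smul, map_sub]
  rw [Finset.sum_congr rfl (fun i _ => h1 i), ← map_sum, Submodule.mkQ_apply,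
    Submodule.Quotient.mk_eq_zero, mem_uSub] at key
  have h2 : (∑ i, (t i : ℚ) • (vec W (K i) - vec W K₀)).2 =
      ((∑ i, t i * ((Module.finrank k (K i) : ℤ) - Module.finrank k K₀) : ℤ) : ℚ) := by
    rw [Prod.snd_sum]
    push_cast
    refine Finset.sum_congr rfl fun i _ => ?_
    rfl
  rw [h2] at key
  refine (cont_iff (fun s hs => ?_)).mpr key
  rw [Prod.fst_sum, Finset.sum_apply]
  refine Finset.sum_congr rfl fun i _ => ?_
  rw [logL_eq, logL_eq]
  change _ = ((t i : ℚ) • ((if 2 < s.re then Lam (wE W) (K i) s else 0) -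
    (if 2 < s.re then Lam (wE W) K₀ s else 0)) : ℂ)
  rw [if_pos hs, if_pos hs, Rat.smul_def]
  push_cast
  rfl

include hQ in
lemma iff_of {m : ℕ} (hm : m ≠ 0) (K₀ : Type) [Field K₀] [NumberField K₀]
    [Algebra k K₀] (hK₀ : IsTotallyComplex K₀) (h0 : Continuation W U Q D K₀)
    (hv : ∀ v : k →+* ℂ, ComplexEmbedding.IsReal v →
      ∃ (E : Type) (_ : Field E) (_ : NumberField E) (_ : Algebra k E),
        0 < realAbove v E ∧ (∀ v', v' ≠ v → realAbove v' E = 0) ∧ Continuation W U Q D E) :
    (∀ (K : Type) [Field K] [NumberField K] [Algebra k K], Continuation W U Q D K) ↔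
      UnramifiedCase W m U Q D := by
  constructor
  · intro h K L _ _ _ _ _ _ _ _ _ _ _ _
    rw [quot_iff W D hQ, (cont_iff_zero W D hQ K).mp (h K), (cont_iff_zero W D hQ L).mp (h L)]
  · intro h K _ _ _
    rw [cont_iff_zero W D hQ]
    refine zero_of_real (defect W D hQ) hm (noChange_of W D hQ h) K₀ hK₀
      ((cont_iff_zero W D hQ K₀).mp h0) (fun v hreal => ?_) K
    obtain ⟨E, e1, e2, e3, h1, h2, h3⟩ := hv v hreal
    exact ⟨E, e1, e2, e3, h1, h2, (cont_iff_zero W D hQ E).mp h3⟩

end proof

/-- **Main theorem.**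

* The series `log L(E/K, s)` converges absolutely for `Re s > 2`, to a continuous function.
* If `Continues U Q D l d`, where `U` is connected and contains the half-plane `Re s > 2`, and the
  function `exp (l s)` itself has a meromorphic continuation to `U`, then it has order `d D(z)` at
  the points `z` of `Q`.
* Let `U` be open and simply connected, and contain the half-plane `Re s > 2`. Then the property
  `Continues U U 0` means that `exp (l s)` has a holomorphic continuation without zeros to `U`.
* Let `E` be an elliptic curve over `k`, let `K₀ ⊇ k` be totally complex, and assume the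
  continuation of the quotients in the unramified case. For all finite families of fields `K_i ⊇ k`
  and integers `t_i` such that `∑ t_i r_v(K_i) = 0` for all real places `v` of `k` (`r_v(K_i)` is
  the number of the real places of `K_i` over `v`), the product of the
  `(L(E/K_i, s) / L(E/K₀, s)) ^ t_i` has the continuation. So the quotients
  `L(E/K, s) / L(E/K₀, s)` have it for all totally complex `K ⊇ k`.
* Assume that the continuation exists over one totally complex field `K₀ ⊇ k` and for every real
  place `v` of `k` over one field `K_v ⊇ k` which has real places, all of them over `v`. Then it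
  exists for `E` over all number fields `K ⊇ k` if and only if it exists for the quotients in the
  unramified case.
* Let `E` be an elliptic curve over `ℚ`. If the continuation exists over `ℚ` and over one totally
  complex field (for example an imaginary quadratic one), then it exists over all number fields if
  and only if it exists for the quotients in the unramified case. -/
theorem result :
    (∀ (K : Type) [Field K] [NumberField K] (W : WeierstrassCurve (𝓞 K)),
      (∀ s : ℂ, 2 < s.re → Summable (term W s)) ∧ ContinuousOn (logL W) {s : ℂ | 2 < s.re}) ∧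
    (∀ (U Q : Set ℂ) (D : ℂ → ℤ) (l : ℂ → ℂ) (d : ℤ), Q ⊆ U → IsPreconnected U →
      (∀ s : ℂ, 2 < s.re → s ∈ U) → Continues U Q D l d → ∀ Λ : ℂ → ℂ, MeromorphicOn Λ U →
      (∀ s : ℂ, 2 < s.re → Λ s = Complex.exp (l s)) →
      ∀ z ∈ Q, meromorphicOrderAt Λ z = ((d * D z : ℤ) : WithTop ℤ)) ∧
    (∀ (U : Set ℂ) (l : ℂ → ℂ) (d : ℤ), IsOpen U → IsSimplyConnected U →
      (∀ s : ℂ, 2 < s.re → s ∈ U) → ContinuousOn l {s : ℂ | 2 < s.re} →
      (Continues U U 0 l d ↔ ∃ F : ℂ → ℂ, AnalyticOnNhd ℂ F U ∧ (∀ z ∈ U, F z ≠ 0) ∧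
        ∀ s : ℂ, 2 < s.re → F s = Complex.exp (l s))) ∧
    (∀ (k : Type) [Field k] [NumberField k] (W : WeierstrassCurve (𝓞 k)) (m : ℕ) (U Q : Set ℂ)
      (D : ℂ → ℤ), m ≠ 0 → Q ⊆ U → ∀ (K₀ : Type) [Field K₀] [NumberField K₀] [Algebra k K₀],
      IsTotallyComplex K₀ →
      (UnramifiedCase W m U Q D → ∀ (ι : Type) [Fintype ι] (K : ι → Type) [∀ i, Field (K i)]
        [∀ i, NumberField (K i)] [∀ i, Algebra k (K i)] (t : ι → ℤ),
        (∀ v : k →+* ℂ, ∑ i, t i * (realAbove v (K i) : ℤ) = 0) →
        Continues U Q D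
          (fun s => ∑ i, t i * (logL (extendTo W (K i)) s - logL (extendTo W K₀) s))
          (∑ i, t i * ((Module.finrank k (K i) : ℤ) - Module.finrank k K₀))) ∧
      (Continuation W U Q D K₀ → (∀ v : k →+* ℂ, ComplexEmbedding.IsReal v →
          ∃ (E : Type) (_ : Field E) (_ : NumberField E) (_ : Algebra k E),
            0 < realAbove v E ∧ (∀ v', v' ≠ v → realAbove v' E = 0) ∧ Continuation W U Q D E) →
        ((∀ (K : Type) [Field K] [NumberField K] [Algebra k K], Continuation W U Q D K) ↔
          UnramifiedCase W m U Q D))) ∧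
    ∀ (W : WeierstrassCurve (𝓞 ℚ)) (m : ℕ) (U Q : Set ℂ) (D : ℂ → ℤ), m ≠ 0 → Q ⊆ U →
      ∀ (K₀ : Type) [Field K₀] [NumberField K₀], IsTotallyComplex K₀ →
      Continuation W U Q D ℚ → Continuation W U Q D K₀ →
      ((∀ (K : Type) [Field K] [NumberField K], Continuation W U Q D K) ↔
        UnramifiedCase W m U Q D) := by
  refine ⟨?_, ?_, ?_, ?_, ?_⟩
  · intro K _ _ W
    refine ⟨fun s hs => ?_, ?_⟩
    · exact Pool.Agent.Run7.h508.BR.tm_summable (Pool.Agent.Run7.h508.BR.wE W)
        (Pool.Agent.Run7.h508.BR.wE_bound W) hs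
    · have h1 := Pool.Agent.Run7.h508.BR.lam_continuousOn (Pool.Agent.Run7.h508.BR.wE W)
        (Pool.Agent.Run7.h508.BR.wE_bound W) K
      have h2 : extendTo W K = W := by
        exact W.map_id
      refine h1.congr fun s _ => ?_
      rw [← logL_eq, h2]
  · intro U Q D l d hQ hU hH h Λ hΛ h1 z hz
    exact ((cont_iff (fun s _ => rfl)).mp h).order hQ hU hH hΛ h1 hz
  · intro U l d hU hsc hH hl
    constructor
    · rintro ⟨n, hn, Z, h1, h2, h3⟩
      refine Pool.Agent.Run7.h508.BR.exact_root hU hsc hH hl hn h1 h2 fun z hz => ?_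
      rw [h3 z hz, Pi.zero_apply, mul_zero, mul_zero]
      rfl
    · rintro ⟨F, h1, h2, h3⟩
      refine ⟨1, one_pos, F, h1.meromorphicOn, fun s hs => ?_, fun z hz => ?_⟩
      · rw [h3 s hs, Nat.cast_one, one_mul]
      · rw [Pi.zero_apply, mul_zero, mul_zero]
        exact ((h1 z hz).meromorphicNFAt.meromorphicOrderAt_eq_zero_iff.mpr (h2 z hz))
  · intro k _ _ W m U Q D hm hQ K₀ _ _ _ hK₀
    exact ⟨fun h ι _ K _ _ _ t ht => relation_of W D hQ hm h K₀ hK₀ ι K t ht,
      fun h0 hv => iff_of W D hQ hm K₀ hK₀ h0 hv⟩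
  · intro W m U Q D hm hQ' K₀ _ _ hK₀ hQ h0
    have h1 := iff_of W D hQ' hm K₀ hK₀ h0 (fun v hv => ⟨ℚ, inferInstance, inferInstance,
      inferInstance, ?_, fun v' hv' => absurd (Subsingleton.elim v' v) hv', hQ⟩)
    · refine ⟨fun h => h1.mp fun K _ _ alg => ?_, fun h K _ _ => h1.mpr h K⟩
      obtain rfl : alg = DivisionRing.toRatAlgebra := Subsingleton.elim _ _
      exact h K
    · have : Nonempty {χ : ℚ →+* ℂ // ComplexEmbedding.IsReal χ ∧
          χ.comp (algebraMap ℚ ℚ) = v} := ⟨⟨v, hv, Subsingleton.elim _ _⟩⟩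
      exact Nat.card_pos

end Pool.Agent.Results.MP_7ed9c3_nt.UnramifiedContinuation
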